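import Pool.Agent.R804.TK.Defs

/-!
# Project TK, piece BAS: the case of `k + 1` vertices
-/

set_option autoImplicit false

namespace Pool.Agent.R715.TK

open Pool.Agent.R553.HW Pool.Agent.R804.TK

theorem ncard_compl {V : Type} [Finite V] {k : ℕ} (h : Nat.card V = k + 1) (x : V) :
    (Set.univ \ {x} : Set V).ncard = k := by
  rw [Set.ncard_sdiff_singleton_of_mem (Set.mem_univ x), Set.ncard_univ, h]
  rfl

theorem sdiff_eq {V : Type} {x y : V} (h : x ≠ y) :
    (Set.univ \ {x} : Set V) \ (Set.univ \ {y}) = {y} := by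
  ext z
  simp only [Set.mem_sdiff, Set.mem_univ, Set.mem_singleton_iff, true_and, not_not]
  constructor
  · exact fun h1 => h1.2
  · rintro rfl
    exact ⟨fun h1 => h h1.symm, rfl⟩

theorem BAS : S_BAS := by
  intro V _ G k m hV h
  refine CMt_comp (tok k G) G
    (fun x => {(⟨Set.univ \ {x}, ncard_compl hV x⟩ : {S : Set V // S.ncard = k})}) ?_ ?_ ?_ h
  · intro x
    rw [SimpleGraph.connected_iff]
    constructor
    · rintro ⟨a, ha⟩ ⟨b, hb⟩
      rw [Set.mem_singleton_iff] at ha hb
      subst ha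
      subst hb
      exact SimpleGraph.Reachable.refl _
    · exact ⟨⟨_, Set.mem_singleton _⟩⟩
  · intro x y hxy
    rw [Set.disjoint_singleton]
    intro h1
    have h2 : (Set.univ \ {x} : Set V) = Set.univ \ {y} := congrArg Subtype.val h1
    have h3 := sdiff_eq hxy
    rw [h2, Set.sdiff_self] at h3
    exact Set.singleton_ne_empty y h3.symm
  · intro x y hxy
    exact ⟨_, Set.mem_singleton _, _, Set.mem_singleton _, y, x, hxy.symm, sdiff_eq hxy.ne,
      sdiff_eq hxy.ne.symm⟩

end Pool.Agent.R715.TK
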